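import Pool.Agent.H77.PG.Six
import Pool.Agent.H77.PG.Rows

/-!
# The Prym-Green vanishing in genus 6 and genus 8 on rational nodal curves, for all levels

Let `a_1, ..., a_g, b_1, ..., b_g` be distinct complex numbers and let `C` be the projective line with `a_i` glued to `b_i` for
`i = 1, ..., g`: an irreducible nodal (stable) curve of arithmetic genus `g`. Line bundles on `C` which are trivial on the
normalisation are given by gluing factors `t = (t_1, ..., t_g)`, `t_i ≠ 0`: the sections of `η_t` are the functions `s` with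
`s (b_i) = t_i s (a_i)`. The order of `η_t` is the order of `t` in the group `(ℂˣ)^g`. The definitions are
below and, for `nodePoly`, `sect` and `glue`, in `Pool.Agent.H77.PG.Base`.

We prove Q1 for `i = 0` and `i = 1` and all levels at once on such curves.

* Genus 6 (`i = 0`). For general nodes (a nonzero polynomial `P` in the `a_i`, `b_i` does not vanish) and for every `z ≠ 1` the line
  bundle `η` with gluing factors `(z, z, z, 1, 1, 1)` satisfies `K_{0,2} (C, ω_C ⊗ η) = 0` and `K_{1,1} (C, ω_C ⊗ η) = 0`.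
* Genus 8 (`i = 1`). For the nodes `a = (2, -2, 3, -3, 1/2, -1/2, 12, -12)`, `b = (1, -1, 6, -6, 4, -4, 3/2, -3/2)` and for every
  `z ≠ 1, -1` the line bundle `η` with gluing factors `(z, z, z, z, 1, 1, 1, 1)` satisfies `K_{1,2} (C, ω_C ⊗ η) = 0` and
  `K_{2,1} (C, ω_C ⊗ η) = 0`.
* The order of `η` is the order of `z`, so every level `ℓ ≥ 2` occurs in the first case and every level `ℓ ≥ 3` in the second, each
  time with the same curve. (In genus 8 the level 2 is a known exception to the vanishing.)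

Proof. For a section `x` let `r_k (x)` be its residue at `a_k`; then `x = ∑ r_k (x) E_k` with
`E_k / D = φ_k = 1 / (x - a_k) - t_k / (x - b_k)`, and `∑ (1 - t_k) r_k (x) = 0`. A tensor in the kernel of the multiplication gives a
symmetric matrix `S` with `S_ii = 0`, `∑_k S_ik φ_k (a_i) = 0`, `∑_k S_ik φ_k (b_i) = 0`, `∑_k (1 - t_k) S_ik = 0`
(`kernel_rel`), and a tensor in the kernel of the Koszul differential gives numbers `T_ijk` which are such matrices for each `i` and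
satisfy `T_ijk + T_jki + T_kij = 0` (`kos_rel`). In genus 6 a short argument gives `S = 0` (`core`). In genus 8 the nodes are orbits of
the Klein group generated by `x ↦ -x` and `x ↦ 6 / x`; because of this symmetry the linear system for `T` reduces, by elimination
steps with constant pivots, to rows which are multiples of `1 + z` (`core8`), so `T = 0` for `z ≠ -1`, and `K_{2,1} = 0`. Finally
`K_{1,2} = 0` follows by counting dimensions in the Koszul complex, since `H⁰ (L) ⊗ H⁰ (L²) → H⁰ (L³)` is onto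
(`vanish12_of`).
-/

set_option autoImplicit false

namespace Pool.Agent.Results.MP_12a849_ag.GenusSixAndEight

open Pool.Agent.H77.PG Polynomial TensorProduct

section Definitions

variable {g : ℕ} (a b : Fin g → ℂ) (t : Fin g → ℂˣ)

/-- The vector space `H⁰ (C, L^q)`, `L = ω_C ⊗ η` (see `sect`). -/
abbrev Sec (q : ℕ) : Type := sect a b t q

/-- The space `H⁰ (L) ⊗ H⁰ (L^q)`. -/
abbrev Ten (q : ℕ) : Type := Sec a b t 1 ⊗[ℂ] Sec a b t q

/-- The space `(H⁰ (L) ⊗ H⁰ (L)) ⊗ H⁰ (L)`. -/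
abbrev Tri : Type := Ten a b t 1 ⊗[ℂ] Sec a b t 1

variable {a b t}

/-- The multiplication `H⁰ (L) ⊗ H⁰ (L^q) → H⁰ (L^(q + 1))`, with values in all polynomials. -/
noncomputable def mulT (q : ℕ) : Ten a b t q →ₗ[ℂ] ℂ[X] :=
  Submodule.mulMap (sect a b t 1) (sect a b t q)

/-- The product of two sections of `L`, a section of `L²`. -/
noncomputable def prd (x y : Sec a b t 1) : Sec a b t (1 + 1) := ⟨x * y, mul_mem_sect a b t x.2 y.2⟩

/-- `x ⊗ y - y ⊗ x`, the image of `x ∧ y`. -/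
noncomputable def alt (x y : Sec a b t 1) : Ten a b t 1 := x ⊗ₜ[ℂ] y - y ⊗ₜ[ℂ] x

/-- `x ⊗ (y w) - y ⊗ (x w)`, the value of the Koszul differential at `(x ∧ y) ⊗ w`. -/
noncomputable def kz (x y w : Sec a b t 1) : Ten a b t (1 + 1) :=
  x ⊗ₜ[ℂ] prd y w - y ⊗ₜ[ℂ] prd x w

/-- `(x ⊗ y) ⊗ w`. -/
noncomputable def tri (x y w : Sec a b t 1) : Tri a b t := (x ⊗ₜ[ℂ] y) ⊗ₜ[ℂ] w

/-- `(x ⊗ y) ⊗ w + (y ⊗ w) ⊗ x + (w ⊗ x) ⊗ y`, the image of `x ∧ y ∧ w`. -/
noncomputable def cyc (x y w : Sec a b t 1) : Tri a b t := tri x y w + tri y w x + tri w x y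

/-- The tensors `(x ⊗ x) ⊗ w` (zero in `⋀² H⁰ (L) ⊗ H⁰ (L)`) and the images of the `x ∧ y ∧ w`. -/
def gens : Set (Tri a b t) :=
  {s | (∃ x w : Sec a b t 1, s = tri x x w) ∨ ∃ x y w : Sec a b t 1, s = cyc x y w}

/-- `k` is the Koszul differential on `(H⁰ (L) ⊗ H⁰ (L)) ⊗ H⁰ (L)`. -/
def IsKoszul (k : Tri a b t →ₗ[ℂ] Ten a b t (1 + 1)) : Prop :=
  ∀ x y w : Sec a b t 1, k (tri x y w) = kz x y w

variable (a b t)

/-- `K_{0,2} (C, L) = 0`: the products of two sections of `L` span the space of sections of `L²`. -/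
def K02 : Prop := sect a b t 1 * sect a b t 1 = sect a b t 2

/-- `K_{1,1} (C, L) = 0`: the kernel of `H⁰ (L) ⊗ H⁰ (L) → H⁰ (L²)` is the image of `⋀² H⁰ (L)`. -/
def K11 : Prop := ∀ τ : Ten a b t 1, mulT 1 τ = 0 →
  τ ∈ Submodule.span ℂ {s | ∃ x y : Sec a b t 1, s = alt x y}

/-- `K_{1,2} (C, L) = 0`: the kernel of `H⁰ (L) ⊗ H⁰ (L²) → H⁰ (L³)` is the image of `⋀² H⁰ (L) ⊗ H⁰ (L)`. -/
def K12 : Prop := ∀ σ : Ten a b t (1 + 1), mulT (1 + 1) σ = 0 →
  σ ∈ Submodule.span ℂ {s | ∃ x y w : Sec a b t 1, s = kz x y w}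

/-- `K_{2,1} (C, L) = 0`: the kernel of the Koszul differential `⋀² H⁰ (L) ⊗ H⁰ (L) → H⁰ (L) ⊗ H⁰ (L²)` is the image of `⋀³ H⁰ (L)`.
Here `⋀² H⁰ (L) ⊗ H⁰ (L)` is the quotient of `(H⁰ (L) ⊗ H⁰ (L)) ⊗ H⁰ (L)` by the span of the tensors `(x ⊗ x) ⊗ w`, and `k` is the
differential, written on `(H⁰ (L) ⊗ H⁰ (L)) ⊗ H⁰ (L)`: the linear map with `k ((x ⊗ y) ⊗ w) = x ⊗ (y w) - y ⊗ (x w)`. -/
def K21 : Prop := ∃ k : Tri a b t →ₗ[ℂ] Ten a b t (1 + 1), IsKoszul k ∧
  ∀ τ : Tri a b t, k τ = 0 → τ ∈ Submodule.span ℂ gens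

end Definitions

section Translation

variable {g : ℕ} (a b : Fin g → ℂ) (t : Fin g → ℂˣ)

theorem k02 (h : VanishK02 a b t) : K02 a b t := by
  refine le_antisymm (Submodule.mul_le.2 fun x hx y hy => mul_mem_sect a b t hx hy)
    fun y hy => ?_
  obtain ⟨τ, hτ⟩ := h ⟨y, hy⟩
  rw [← Submodule.mulMap_range]
  exact ⟨τ, congrArg Subtype.val hτ⟩

theorem k11 (h : VanishK11 a b t) : K11 a b t := by
  intro τ hτ
  refine Submodule.span_mono ?_ (h τ (Subtype.ext hτ))
  rintro _ ⟨p, rfl⟩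
  exact ⟨p.1, p.2, rfl⟩

theorem kos_tri (x y w : Sec a b t 1) : kos a b t (tri x y w) = kz x y w := by
  have e1 : mulS a b t 1 1 (y ⊗ₜ[ℂ] w) = prd y w := Subtype.ext rfl
  have e2 : mulS a b t 1 1 (x ⊗ₜ[ℂ] w) = prd x w := Subtype.ext rfl
  rw [tri, kos_tmul, e1, e2, kz, sub_eq_add_neg, TensorProduct.tmul_neg]

theorem k12 (h : VanishK12 a b t) : K12 a b t := by
  intro σ hσ
  obtain ⟨τ, rfl⟩ := h σ (Subtype.ext hσ)
  clear hσ
  induction τ using TensorProduct.induction_on with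
  | zero => rw [map_zero]; exact Submodule.zero_mem _
  | tmul s w =>
    induction s using TensorProduct.induction_on with
    | zero => rw [TensorProduct.zero_tmul, map_zero]; exact Submodule.zero_mem _
    | tmul x y => exact Submodule.subset_span ⟨x, y, w, kos_tri a b t x y w⟩
    | add s s' h1 h2 =>
      rw [TensorProduct.add_tmul, map_add]
      exact Submodule.add_mem _ h1 h2
  | add s s' h1 h2 => rw [map_add]; exact Submodule.add_mem _ h1 h2

theorem k21 (h : VanishK21 a b t) : K21 a b t := by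
  refine ⟨kos a b t, kos_tri a b t, fun τ hτ => ?_⟩
  have h1 := h τ hτ
  rw [← Submodule.span_union] at h1
  refine Submodule.span_mono ?_ h1
  rintro _ (⟨p, rfl⟩ | ⟨p, rfl⟩)
  · exact Or.inl ⟨p.1, p.2, rfl⟩
  · exact Or.inr ⟨p.1, p.2.1, p.2.2, rfl⟩

end Translation

theorem glue_order {g m : ℕ} (hm : 0 < m) (hg : 0 < g) (z : ℂˣ) :
    orderOf (glue g m z) = orderOf z := by
  rw [orderOf_eq_orderOf_iff]
  intro n
  constructor
  · intro h
    have h1 := congrFun h ⟨0, hg⟩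
    simpa only [Pi.pow_apply, glue, hm, if_true, Pi.one_apply] using h1
  · intro h
    funext i
    simp only [Pi.pow_apply, glue, Pi.one_apply]
    split_ifs
    · exact h
    · exact one_pow n

/-- **Prym-Green in genus 6 and 8 on rational nodal curves, all levels.** `C` is the projective line with `a_i` glued to `b_i`, `η` the
line bundle with gluing factors `glue g m z = (z, ..., z, 1, ..., 1)` (`m` factors `z`), and `K02`, `K11`, `K12`, `K21` say that the
Koszul cohomology groups of `L = ω_C ⊗ η` vanish. (1) Genus 6: for all nodes outside of the zero set of a nonzero polynomial,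
`K_{0,2} = 0` and `K_{1,1} = 0` for all `z ≠ 1`. (2) Genus 8: there are nodes with `K_{1,2} = 0` and `K_{2,1} = 0` for all
`z ≠ 1, -1`. (3) The order of `η` is the order of `z`. (4) Every order occurs. -/
theorem result :
    (∃ P : MvPolynomial (Fin 6 ⊕ Fin 6) ℂ, P ≠ 0 ∧
      ∀ a b : Fin 6 → ℂ, MvPolynomial.eval (Sum.elim a b) P ≠ 0 →
        Function.Injective (Sum.elim a b) ∧
        ∀ z : ℂˣ, z ≠ 1 → K02 a b (glue 6 3 z) ∧ K11 a b (glue 6 3 z)) ∧
    (∃ a b : Fin 8 → ℂ, Function.Injective (Sum.elim a b) ∧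
      ∀ z : ℂˣ, z ≠ 1 → z ≠ -1 → K12 a b (glue 8 4 z) ∧ K21 a b (glue 8 4 z)) ∧
    (∀ z : ℂˣ, orderOf (glue 6 3 z) = orderOf z ∧ orderOf (glue 8 4 z) = orderOf z) ∧
    ∀ l : ℕ, 1 ≤ l → ∃ z : ℂˣ, orderOf z = l := by
  refine ⟨⟨good MvPolynomial.X, good_X_ne, fun a b h => ?_⟩,
    ⟨a8, b8, inj8, fun z h1 h2 => ?_⟩,
    fun z => ⟨glue_order (by norm_num) (by norm_num) z,
      glue_order (by norm_num) (by norm_num) z⟩, fun l hl => ?_⟩
  · rw [good_map] at h
    simp only [MvPolynomial.eval_X] at h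
    have h' : good (Sum.elim a b) ≠ 0 := h
    have hd := left_ne_zero_of_mul (left_ne_zero_of_mul h')
    have h1 := right_ne_zero_of_mul (left_ne_zero_of_mul h')
    have h2 := right_ne_zero_of_mul h'
    have hv := inj_of_diffs _ hd
    exact ⟨hv, fun z hz => ⟨k02 _ _ _ (vanish02 a b z hv h1 h2 hz),
      k11 _ _ _ (vanish11 a b z hv h1 h2 hz)⟩⟩
  · have h := vanish8 z h1 fun e => h2 (Units.ext e)
    exact ⟨k12 _ _ _ h.1, k21 _ _ _ h.2⟩
  · have hl' : l ≠ 0 := by omega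
    have h := Complex.isPrimitiveRoot_exp l hl'
    exact ⟨(h.isUnit hl').unit, (h.isUnit_unit hl').eq_orderOf.symm⟩

end Pool.Agent.Results.MP_12a849_ag.GenusSixAndEight
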